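import Pool.Agent.Helper15.RA.GoalsR

/-! RA-RP: finite dihedral groups with unequal parameters, property P1. -/

set_option autoImplicit false

open LaurentPolynomial Pool.Agent.Helper15.RA

noncomputable section

namespace Pool.Agent.Helper8.RA

variable {I W H : Type} [Group W] [Ring H] [Algebra ℤ[T;T⁻¹] H] {M : CoxeterMatrix I}
  {cs : CoxeterSystem M W} {L : W → ℕ}

/-- coordinates of `T_s Z` -/
theorem repr_mul (h1 : H_1) (D : Hecke0 cs L H) (i : I) (y : W)
    (hy : cs.length (cs.simple i * y) = cs.length y + 1) (Z : H) :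
    D.t.repr (D.t (cs.simple i) * Z) y = D.t.repr Z (cs.simple i * y) ∧
    D.t.repr (D.t (cs.simple i) * Z) (cs.simple i * y) =
      D.t.repr Z y + xi (L (cs.simple i)) * D.t.repr Z (cs.simple i * y) := by
  classical
  obtain ⟨-, hup, hdn, -⟩ := h1 I W H M cs L D
  have hss : ∀ w : W, cs.simple i * (cs.simple i * w) = w := fun w ↦ by
    rw [← mul_assoc, cs.simple_mul_simple_self, one_mul]
  have hne : y ≠ cs.simple i * y := fun h ↦ by
    rw [← h] at hy
    omega
  -- the value on basis elements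
  have key : ∀ w, D.t.repr (D.t (cs.simple i) * D.t w) y = D.t.repr (D.t w) (cs.simple i * y) ∧
      D.t.repr (D.t (cs.simple i) * D.t w) (cs.simple i * y) =
        D.t.repr (D.t w) y + xi (L (cs.simple i)) * D.t.repr (D.t w) (cs.simple i * y) := by
    intro w
    have hinj : ∀ u v : W, cs.simple i * u = cs.simple i * v ↔ u = v := fun u v ↦ mul_right_inj _
    have hsw : cs.simple i * w = y ↔ w = cs.simple i * y := by
      constructor
      · intro h
        rw [← h, hss]
      · intro h
        rw [h, hss]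
    rcases cs.length_simple_mul w i with h | h
    · rw [hup i w h]
      simp only [Module.Basis.repr_self, Finsupp.single_apply, hinj, hsw]
      have hwy : w ≠ cs.simple i * y := by
        intro hw
        rw [hw, hss] at h
        omega
      simp [hwy]
    · rw [hdn i w h]
      have hwy : w ≠ y := by
        intro hw
        rw [hw] at h
        omega
      simp only [map_add, map_smul, Finsupp.add_apply, Finsupp.smul_apply, smul_eq_mul,
        Module.Basis.repr_self, Finsupp.single_apply, hinj, hsw, if_neg hwy]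
      constructor
      · simp
      · ring
  have l1 : (Finsupp.lapply y).comp (D.t.repr.toLinearMap.comp
      (LinearMap.mulLeft ℤ[T;T⁻¹] (D.t (cs.simple i)))) =
      (Finsupp.lapply (cs.simple i * y)).comp D.t.repr.toLinearMap := by
    apply D.t.ext
    intro w
    exact (key w).1
  have l2 : (Finsupp.lapply (cs.simple i * y)).comp (D.t.repr.toLinearMap.comp
      (LinearMap.mulLeft ℤ[T;T⁻¹] (D.t (cs.simple i)))) =
      (Finsupp.lapply y).comp D.t.repr.toLinearMap +
        xi (L (cs.simple i)) • (Finsupp.lapply (cs.simple i * y)).comp D.t.repr.toLinearMap := by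
    apply D.t.ext
    intro w
    exact (key w).2
  exact ⟨LinearMap.congr_fun l1 Z, LinearMap.congr_fun l2 Z⟩

theorem degLE_repr (D : Hecke cs L H) (w y : W) : DegLE 0 (D.t.repr (D.c w) y) := by
  classical
  have h := D.c_sub w y
  rw [map_sub, Finsupp.sub_apply] at h
  have h2 : D.t.repr (D.c w) y = (D.t.repr (D.c w) y - D.t.repr (D.t w) y) +
      D.t.repr (D.t w) y := by ring
  rw [h2]
  refine (h.mono (by norm_num)).add ?_
  rw [Module.Basis.repr_self, Finsupp.single_apply]
  split_ifs
  · exact DegLE.one le_rfl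
  · exact DegLE.zero 0

/-- `E_k ∈ c_i H` -/
theorem EE_mem (ci cj : H) (ζ : ℤ[T;T⁻¹]) :
    ∀ k, ∃ Y, EE ci cj (ci * cj - ζ • 1) k = ci * Y := by
  have hZ : (ci * cj - ζ • 1) * ci = ci * (cj * ci - ζ • 1) := by
    rw [sub_mul, mul_sub, mul_assoc, smul_mul_assoc, one_mul, mul_smul_comm, mul_one]
  intro k
  induction k using Nat.strong_induction_on with
  | _ k ih =>
    match k, ih with
    | 0, _ => exact ⟨0, by rw [mul_zero]; rfl⟩
    | 1, _ => exact ⟨1, by rw [mul_one]; rfl⟩
    | 2, _ => exact ⟨cj, rfl⟩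
    | 3, _ => exact ⟨cj * ci - ζ • 1, hZ⟩
    | k + 4, ih =>
      obtain ⟨Y, hY⟩ := ih (k + 2) (by omega)
      obtain ⟨Y', hY'⟩ := ih k (by omega)
      refine ⟨(cj * ci - ζ • 1) * Y - Y', ?_⟩
      show (ci * cj - ζ • 1) * EE ci cj (ci * cj - ζ • 1) (k + 2) -
        EE ci cj (ci * cj - ζ • 1) k = _
      rw [hY, hY', mul_sub, ← mul_assoc, hZ, mul_assoc]

theorem T_mul_T_neg (n : ℤ) : (T n : ℤ[T;T⁻¹]) * T (-n) = 1 := by
  rw [← T_add, add_neg_cancel, T_zero]

/-- if `c_s Z = δ_s Z` then `p_y = v^(-L s) p_(s y)` -/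
theorem repr_eig (h1 : H_1) (h2 : H_2) (wt : IsWeight cs L) (D : Hecke cs L H) (i : I) (y : W)
    (hy : cs.length (cs.simple i * y) = cs.length y + 1) (Z : H)
    (hZ : D.c (cs.simple i) * Z = dl (L (cs.simple i)) • Z) :
    D.t.repr Z y = T (-(L (cs.simple i) : ℤ)) * D.t.repr Z (cs.simple i * y) := by
  obtain ⟨-, -, -, -, -, -, -, -, hcs, -⟩ := h2 I W H M cs L wt D
  rw [hcs i, add_mul, smul_mul_assoc, one_mul] at hZ
  have hT : D.t (cs.simple i) * Z = (T (L (cs.simple i) : ℤ) : ℤ[T;T⁻¹]) • Z := by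
    have : dl (L (cs.simple i)) • Z = (T (L (cs.simple i) : ℤ) : ℤ[T;T⁻¹]) • Z +
        (T (-(L (cs.simple i) : ℤ)) : ℤ[T;T⁻¹]) • Z := by
      rw [← add_smul]
      rfl
    rw [this] at hZ
    exact add_right_cancel hZ
  have h := (repr_mul h1 D.toHecke0 i y hy Z).1
  rw [hT, map_smul, Finsupp.smul_apply, smul_eq_mul] at h
  rw [← h, ← mul_assoc, mul_comm (T (-(L (cs.simple i) : ℤ)) : ℤ[T;T⁻¹]), T_mul_T_neg, one_mul]

theorem h_rp (h1 : H_1) (h2 : H_2) (hW : R_W) (hE : R_E) (hT : R_T) : R_P := by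
  intro I W H _ _ _ X hab
  have hm3 := X.hm
  have hM : X.M X.i X.j ≠ 0 := by omega
  have hM' : X.M X.j X.i = X.M X.i X.j := X.M.symmetric X.j X.i
  obtain ⟨len, braid, words, inj, -, -, wts⟩ := hW I W X.M X.cs X.i X.j X.ne X.all hM
  obtain ⟨len', braid', words', inj', -, -, wts'⟩ := hW I W X.M X.cs X.j X.i X.ne.symm
    (fun k ↦ (X.all k).symm) (by rw [hM']; exact hM)
  rw [hM'] at len' words' inj' wts' braid'
  obtain ⟨L1, Ladd, Llt, Lev⟩ := wts X.L X.wt
  obtain ⟨-, Ladd', -, -⟩ := wts' X.L X.wt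
  obtain ⟨e1, e2⟩ := hE I W H X hab
  obtain ⟨-, -, -, -, -, hw0, -, -⟩ := hT I W H X
  obtain ⟨-, -, -, hc1, -, -, -, hcone, hcs, hcc⟩ := h2 I W H X.M X.cs X.L X.wt X.D
  obtain ⟨ht1, -⟩ := h1 I W H X.M X.cs X.L X.D.toHecke0
  have len0 : X.cs.length (1 : W) = 0 := X.cs.length_one
  -- (i)
  have eig : ∀ k, X.D.c (X.cs.simple X.i) * X.E k = dl (X.L (X.cs.simple X.i)) • X.E k := by
    intro k
    obtain ⟨Y, hY⟩ := EE_mem X.ci X.cj X.zeta k
    have hY' : X.E k = X.ci * Y := hY
    rw [hY', ← mul_assoc]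
    show X.D.c (X.cs.simple X.i) * X.D.c (X.cs.simple X.i) * Y = _
    rw [hcc, smul_mul_assoc]
    rfl
  have repE : ∀ k, 1 ≤ k → k ≤ X.m → ∀ y, X.cs.length (X.cs.simple X.i * y) = X.cs.length y + 1 →
      X.D.t.repr (X.D.c (X.p k)) y =
        T (-(X.a : ℤ)) * X.D.t.repr (X.D.c (X.p k)) (X.cs.simple X.i * y) := by
    intro k hk1 hk2 y hy
    have h := repr_eig h1 h2 X.wt X.D X.i y hy (X.E k) (eig k)
    rw [e1 k hk1 hk2] at h
    exact h
  have degE : ∀ k, 1 ≤ k → k ≤ X.m → ∀ y, X.cs.length (X.cs.simple X.i * y) = X.cs.length y + 1 →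
      DegLE (-(X.a : ℤ)) (X.D.t.repr (X.D.c (X.p k)) y) := by
    intro k hk1 hk2 y hy
    rw [repE k hk1 hk2 y hy]
    exact (DegLE.T_le le_rfl).mul_le (degLE_repr X.D _ _) (by omega)
  have hi1 : X.cs.length (X.cs.simple X.i * 1) = X.cs.length (1 : W) + 1 := by
    rw [mul_one, len0, X.cs.length_simple]
  have hj1 : X.cs.length (X.cs.simple X.j * 1) = X.cs.length (1 : W) + 1 := by
    rw [mul_one, len0, X.cs.length_simple]
  have hij : X.cs.length (X.cs.simple X.i * X.cs.simple X.j) =
      X.cs.length (X.cs.simple X.j) + 1 := by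
    have h := len 2 (by omega)
    have h' : al X.cs X.i X.j 2 = X.cs.simple X.i * X.cs.simple X.j := by
      show X.cs.simple X.i * (X.cs.simple X.j * 1) = _
      rw [mul_one]
    rw [h'] at h
    rw [h, X.cs.length_simple]
  -- multiplication by `c_j`
  have mulcj : ∀ Z : H, X.cj * Z = X.D.t (X.cs.simple X.j) * Z +
      (T (-(X.b : ℤ)) : ℤ[T;T⁻¹]) • Z := by
    intro Z
    show X.D.c (X.cs.simple X.j) * Z = _
    rw [hcs X.j, add_mul, smul_mul_assoc, one_mul]
    rfl
  refine ⟨?_, ?_, ?_⟩
  · intro w hw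
    obtain ⟨hw1, hw2, hw3, hw4⟩ := hw
    obtain ⟨k, hk, hwk⟩ := words w
    rcases hwk with hwk | hwk
    · have hk0 : k ≠ 0 := by
        rintro rfl
        exact hw1 hwk
      have h := degE k (by omega) hk 1 hi1
      rw [hwk]
      exact h
    · have hk0 : k ≠ 0 := by
        rintro rfl
        exact hw1 hwk
      have hk1 : k ≠ 1 := by
        rintro rfl
        apply hw2
        rw [hwk]
        exact mul_one _
      have hkm : k ≠ X.M X.i X.j := by
        rintro rfl
        apply hw4
        rw [hwk, ← braid]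
        rfl
      obtain ⟨l, rfl⟩ : ∃ l, k = l + 1 := ⟨k - 1, by omega⟩
      have hlm : l ≤ X.m := by
        show l ≤ X.M X.i X.j
        omega
      have hc := e2 l (by omega) hk
      have hwq : w = X.q (l + 1) := hwk
      rw [hwq, ← hc, mulcj, map_add, map_smul, Finsupp.add_apply, Finsupp.smul_apply,
        smul_eq_mul, (repr_mul h1 X.D.toHecke0 X.j 1 hj1 (X.E l)).1, mul_one,
        e1 l (by omega) hlm]
      refine (degE l (by omega) hlm _ hij).add ?_
      exact (DegLE.T_le le_rfl).mul_le (degE l (by omega) hlm 1 hi1) (by omega)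
  · classical
    have hne1 : X.cs.simple X.j ≠ 1 := by
      intro h
      have h' := X.cs.length_simple X.j
      rw [h, len0] at h'
      omega
    have r1 : X.D.t.repr (X.D.t (X.cs.simple X.j)) 1 = 0 := by
      rw [Module.Basis.repr_self, Finsupp.single_apply, if_neg hne1]
    have r2 : X.D.t.repr (1 : H) 1 = 1 := by
      rw [← ht1, Module.Basis.repr_self, Finsupp.single_apply, if_pos rfl]
    rw [hcs X.j, map_add, map_smul, Finsupp.add_apply, Finsupp.smul_apply, smul_eq_mul, r1, r2,
      mul_one, zero_add]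
    exact DegLE.T_le le_rfl
  · -- (iv)
    have hne : X.L (X.cs.simple X.i) ≠ X.L (X.cs.simple X.j) := by
      have h : X.L (X.cs.simple X.j) < X.L (X.cs.simple X.i) := hab
      omega
    obtain ⟨n, hn⟩ := Lev hne
    have hmn : X.m = 2 * n := by
      show X.M X.i X.j = 2 * n
      omega
    have hMn : X.M X.i X.j = 2 * n := hmn
    have hce : X.cj * X.D.c X.e = X.D.c X.w0 := by
      have h := e2 (X.m - 1) (by omega) (by omega)
      rw [e1 (X.m - 1) (by omega) (by omega)] at h
      have h' : X.q (X.m - 1 + 1) = X.w0 := by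
        have : X.m - 1 + 1 = X.m := by omega
        rw [this]
        exact braid.symm
      rw [h'] at h
      exact h
    -- weights
    have hL : ∀ r, 2 * r ≤ 2 * n → X.L (X.q (2 * r)) = r * (X.a + X.b) := by
      intro r
      induction r with
      | zero =>
        intro _
        rw [zero_mul]
        exact L1
      | succ r ih =>
        intro hr
        have h3 : X.L (X.q (2 * r + 1 + 1)) = X.b + X.L (X.p (2 * r + 1)) :=
          Ladd' (2 * r + 1) (by omega)
        have h4 : X.L (X.p (2 * r + 1)) = X.a + X.L (X.q (2 * r)) := Ladd (2 * r) (by omega)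
        have h5 : 2 * (r + 1) = 2 * r + 1 + 1 := by ring
        rw [h5, h3, h4, ih (by omega)]
        ring
    have hLw : X.L X.w0 = n * (X.a + X.b) := by
      have h : X.w0 = X.q (2 * n) := by
        show al X.cs X.i X.j X.m = al X.cs X.j X.i (2 * n)
        rw [← hmn]
        exact braid
      rw [h, hL n le_rfl]
    -- the recursion
    have step : ∀ y, X.cs.length (X.cs.simple X.j * y) = X.cs.length y + 1 →
        X.D.t.repr (X.D.c X.e) y = T ((X.L (X.cs.simple X.j * y) : ℤ) - X.L X.w0) -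
          T (X.b : ℤ) * X.D.t.repr (X.D.c X.e) (X.cs.simple X.j * y) := by
      intro y hy
      have h3 : X.D.t.repr (X.cj * X.D.c X.e) (X.cs.simple X.j * y) =
          X.D.t.repr (X.D.c X.w0) (X.cs.simple X.j * y) := by rw [hce]
      rw [mulcj, map_add, map_smul, Finsupp.add_apply, Finsupp.smul_apply, smul_eq_mul,
        (repr_mul h1 X.D.toHecke0 X.j y hy (X.D.c X.e)).2, hw0] at h3
      have hxi : xi (X.L (X.cs.simple X.j)) = T (X.b : ℤ) - T (-(X.b : ℤ)) := rfl
      rw [hxi] at h3
      rw [← h3]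
      ring
    have main : ∀ d r : ℕ, d + r + 1 = n →
        DegLE (-((d : ℤ) + 1) * X.a + d * X.b) (X.D.t.repr (X.D.c X.e) (X.q (2 * r))) := by
      intro d
      induction d with
      | zero =>
        intro r hr
        have hlen : X.cs.length (X.cs.simple X.i * X.q (2 * r)) = X.cs.length (X.q (2 * r)) + 1 := by
          have h3 : X.cs.length (X.p (2 * r + 1)) = 2 * r + 1 := len (2 * r + 1) (by omega)
          have h4 : X.cs.length (X.q (2 * r)) = 2 * r := len' (2 * r) (by omega)
          rw [h4]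
          exact h3
        have h := degE (X.m - 1) (by omega) (by omega) (X.q (2 * r)) hlen
        exact h.mono (by push_cast; omega)
      | succ d ih =>
        intro r hr
        have hlen : X.cs.length (X.cs.simple X.i * X.q (2 * r)) = X.cs.length (X.q (2 * r)) + 1 := by
          have h3 : X.cs.length (X.p (2 * r + 1)) = 2 * r + 1 := len (2 * r + 1) (by omega)
          have h4 : X.cs.length (X.q (2 * r)) = 2 * r := len' (2 * r) (by omega)
          rw [h4]
          exact h3
        have hlen2 : X.cs.length (X.cs.simple X.j * X.p (2 * r + 1)) =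
            X.cs.length (X.p (2 * r + 1)) + 1 := by
          have h3 : X.cs.length (X.p (2 * r + 1)) = 2 * r + 1 := len (2 * r + 1) (by omega)
          have h4 : X.cs.length (X.q (2 * r + 1 + 1)) = 2 * r + 1 + 1 :=
            len' (2 * r + 1 + 1) (by omega)
          rw [h3]
          exact h4
        have h6 := repE (X.m - 1) (by omega) (by omega) (X.q (2 * r)) hlen
        have h7 : X.cs.simple X.i * X.q (2 * r) = X.p (2 * r + 1) := rfl
        have h8 : X.cs.simple X.j * X.p (2 * r + 1) = X.q (2 * (r + 1)) := rfl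
        have h9 := step (X.p (2 * r + 1)) hlen2
        rw [h7] at h6
        rw [h8] at h9
        have h10 : X.D.c (X.p (X.m - 1)) = X.D.c X.e := rfl
        rw [h10, h9] at h6
        rw [h6]
        have h11 := ih (r + 1) (by omega)
        have hnz : (n : ℤ) = d + 1 + r + 1 := by
          rw [← hr]
          push_cast
          ring
        have habz : (X.b : ℤ) < X.a := by exact_mod_cast hab
        have hbz : (0 : ℤ) ≤ X.b := Int.natCast_nonneg _
        have hdz : (0 : ℤ) ≤ d := Int.natCast_nonneg _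
        have h12 : DegLE (-((d : ℤ) + 1) * X.a + (d + 1) * X.b)
            (T ((X.L (X.q (2 * (r + 1))) : ℤ) - X.L X.w0) -
              T (X.b : ℤ) * X.D.t.repr (X.D.c X.e) (X.q (2 * (r + 1)))) := by
          refine DegLE.sub (DegLE.T_le ?_) ((DegLE.T_le le_rfl).mul_le h11 ?_)
          · rw [hL (r + 1) (by omega), hLw]
            push_cast
            rw [hnz]
            nlinarith
          · nlinarith
        refine (DegLE.T_le le_rfl).mul_le h12 ?_
        push_cast
        nlinarith
    obtain ⟨n', rfl⟩ : ∃ n', n = n' + 1 := ⟨n - 1, by omega⟩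
    have h := main n' 0 (by omega)
    have h13 : X.q (2 * 0) = 1 := rfl
    rw [h13] at h
    refine h.mono (le_of_eq ?_)
    have h14 : X.A1 = X.a + n' * (X.a - X.b) := by
      show X.a + (X.m / 2 - 1) * (X.a - X.b) = _
      rw [hmn]
      have : 2 * (n' + 1) / 2 - 1 = n' := by omega
      rw [this]
    have h15 : ((X.a - X.b : ℕ) : ℤ) = (X.a : ℤ) - X.b := Nat.cast_sub hab.le
    rw [h14, Nat.cast_add, Nat.cast_mul, h15]
    ring

end Pool.Agent.Helper8.RA
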